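import Pool.Agent.K4H33.SK.Stmt

/-!
# Stark units over complex cubic fields, for characters lifted from `ℚ`

`Qbar` is an algebraic closure of `ℚ` and `ι : Qbar → ℂ` an embedding.  All fields are subfields of
`Qbar`, and Galois groups are described by the automorphisms `GQ` of `Qbar`.

* `K` is a cubic field with `ι K` not real: a complex cubic field whose complex place is given by `ι`.
* `k` is the quadratic field with `K ⊔ k` normal over `ℚ`: the imaginary quadratic field generated by
  the square root of the discriminant of `K`.
* `k'` is any subfield of the `f`-th cyclotomic field, `H = K ⊔ k'`, and `𝔣` is a nonzero ideal of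
  `K` divisible by all primes dividing `f`.  The set `S` consists of the infinite places of `K` and
  the primes dividing `𝔣`.
* `hS` is Stark's theorem for the abelian extension `K ⊔ k ⊔ k'` of the imaginary quadratic field
  `k`; `hA` is the factorization `ζ_K(s) = ζ(s) L(s, ψ)` (with `𝔪` the product of `f` and the
  conductor of `K ⊔ k` over `k`).

The conclusion `StarkCubic` is the rank one abelian Stark conjecture, in Tate's refined form, for
`H/K`, `S` and the complex place: there is a unit `ε` of `H` of absolute value one at all places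
above the real place of `K`, with `log |σ ε|_v = - W ζ_S'(σ, 0)` for all `σ`, and such that
`H(ε^(1/W))` is abelian over `K`.
-/

set_option autoImplicit false

namespace Pool.Agent.Results.MP_d9f52e_nt.EllipticStarkUnits

open NumberField Pool.Agent.K4H33.SK.Stmt
open Pool.Agent.K4H33.SK (Qbar GQ IsTorsionOrder stark_cubic_general)

theorem result (ι : Qbar →+* ℂ) (K k k' : Sub) [NumberField K] [NumberField k] (f : ℕ) (ζ : Qbar)
    (hF : Fields ι K k k' f ζ) (𝔪 : Ideals k) (art : Ideals k → GQ) (artK : Ideals K → GQ)
    (hart : Symbols K k f ζ 𝔪 art artK) (hA : ArtinFactorization K k f 𝔪 art) (W' : ℕ)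
    (hW' : IsTorsionOrder (K ⊔ k ⊔ k') W') (hS : StarkImQuad ι k (K ⊔ k ⊔ k') 𝔪 art W') (W : ℕ)
    (hW : IsTorsionOrder (K ⊔ k') W) (𝔣 : Ideals K) (h𝔣 : PrimesOver K f 𝔣) :
    StarkCubic ι K (K ⊔ k') 𝔣 artK W :=
  stark_cubic_general ι K k k' hF.deg_K hF.deg_k hF.normal hF.complex f hF.two_le ζ hF.prim hF.sub
    𝔪 hart.dvd art hart.art_k.down artK hart.art_K.down hA W' hW' hS W hW 𝔣 h𝔣.1 h𝔣.2

end Pool.Agent.Results.MP_d9f52e_nt.EllipticStarkUnits
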